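import Pool.Agent.Y776.NV.Zero

/-! Project NV, part FINP: the function `M` has at most `s.card` poles, with multiplicity. -/

set_option autoImplicit false

namespace Pool.Agent.Y899.NV

open Complex ComplexConjugate Filter Topology Polynomial Pool.Agent.Y922.NV

/-- the polynomial `Q - P` -/
noncomputable def pol {ι : Type} (s : Finset ι) (a : ι → ℂ) : ℂ[X] :=
  ∏ i ∈ s, (X - C (conj (a i))) - ∏ i ∈ s, (X - C (a i))

theorem eval_pol {ι : Type} (s : Finset ι) (a : ι → ℂ) (z : ℂ) :
    (pol s a).eval z = QQ s a z - PP s a z := by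
  unfold pol QQ PP
  rw [eval_sub, eval_prod, eval_prod]
  simp

theorem pol_ne {ι : Type} (s : Finset ι) (a : ι → ℂ) (hs : s.Nonempty)
    (ha : ∀ i ∈ s, 0 < (a i).im) : pol s a ≠ 0 := by
  intro h
  apply Pool.Agent.Y776.NV.D_ne s a hs ha
  rw [← eval_pol, h, eval_zero]

theorem pol_deg {ι : Type} (s : Finset ι) (a : ι → ℂ) : (pol s a).natDegree ≤ s.card := by
  unfold pol
  refine (natDegree_sub_le _ _).trans (max_le ?_ ?_)
  · rw [natDegree_finsetProd_X_sub_C_eq_card]
  · rw [natDegree_finsetProd_X_sub_C_eq_card]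

theorem key {ι : Type} (s : Finset ι) (a : ι → ℂ) (hs : s.Nonempty)
    (ha : ∀ i ∈ s, 0 < (a i).im) (z : ℂ) :
    poleMult (MM s a) z ≤ (pol s a).rootMultiplicity z := by
  obtain ⟨q, hq, hdvd⟩ := exists_eq_pow_rootMultiplicity_mul_and_not_dvd (pol s a)
    (pol_ne s a hs ha) z
  set n := (pol s a).rootMultiplicity z with hn
  have hqz : q.eval z ≠ 0 := fun h => hdvd (dvd_iff_isRoot.2 h)
  have hD : ∀ w, QQ s a w - PP s a w = (w - z) ^ n * q.eval w := by
    intro w
    rw [← eval_pol, hq, eval_mul, eval_pow, eval_sub, eval_X, eval_C]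
  have hqan : AnalyticAt ℂ (fun w => q.eval w) z := q.differentiable.analyticAt z
  have hDan : AnalyticAt ℂ (fun w => QQ s a w - PP s a w) z :=
    (Pool.Agent.Y776.NV.D_an s a).analyticAt z
  have hNan : AnalyticAt ℂ (fun w => I * (QQ s a w + PP s a w)) z := by
    have : Differentiable ℂ (fun w => I * (QQ s a w + PP s a w)) := by
      unfold QQ PP
      fun_prop
    exact this.analyticAt z
  have hordD : meromorphicOrderAt (fun w => QQ s a w - PP s a w) z = ((n : ℤ) : WithTop ℤ) := by
    rw [meromorphicOrderAt_eq_int_iff hDan.meromorphicAt]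
    refine ⟨fun w => q.eval w, hqan, hqz, ?_⟩
    filter_upwards with w
    rw [hD, zpow_natCast, smul_eq_mul]
  have hord : meromorphicOrderAt (MM s a) z =
      meromorphicOrderAt (fun w => I * (QQ s a w + PP s a w)) z + (-(n : ℤ) : WithTop ℤ) := by
    have h1 : MM s a = (fun w => I * (QQ s a w + PP s a w)) *
        (fun w => QQ s a w - PP s a w)⁻¹ := by
      funext w
      rw [Pi.mul_apply, Pi.inv_apply, ← div_eq_mul_inv]
      rfl
    rw [h1, meromorphicOrderAt_mul hNan.meromorphicAt hDan.meromorphicAt.inv,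
      meromorphicOrderAt_inv, hordD]
  have hN0 := hNan.meromorphicOrderAt_nonneg
  unfold poleMult
  rw [hord]
  generalize meromorphicOrderAt (fun w => I * (QQ s a w + PP s a w)) z = o at hN0
  cases o with
  | top => simp
  | coe k =>
    have hk : 0 ≤ k := by exact_mod_cast hN0
    have h2 : ((k : WithTop ℤ) + (-(n : ℤ) : WithTop ℤ)) = ((k - n : ℤ) : WithTop ℤ) := by
      rw [sub_eq_add_neg]
      rfl
    rw [h2, WithTop.untop₀_coe]
    omega

theorem t_FINP : ∀ (ι : Type) (s : Finset ι) (a : ι → ℂ), s.Nonempty →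
    (∀ i ∈ s, 0 < (a i).im) → ∀ U : Set ℂ, poleCount (MM s a) U ≤ (s.card : ℕ∞) := by
  classical
  intro ι s a hs ha U
  unfold poleCount
  refine iSup_le fun F => ?_
  have h1 : ∑ z ∈ F.1, poleMult (MM s a) z ≤ s.card := by
    calc _ ≤ ∑ z ∈ F.1, (pol s a).rootMultiplicity z :=
          Finset.sum_le_sum fun z _ => key s a hs ha z
      _ = ∑ z ∈ F.1, (pol s a).roots.count z :=
          Finset.sum_congr rfl fun z _ => (count_roots _).symm
      _ ≤ ∑ z ∈ (pol s a).roots.toFinset, (pol s a).roots.count z := by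
          refine Finset.sum_le_sum_of_ne_zero fun z _ hz => ?_
          rw [Multiset.mem_toFinset]
          exact Multiset.count_ne_zero.1 hz
      _ = Multiset.card (pol s a).roots := Multiset.toFinset_sum_count_eq _
      _ ≤ (pol s a).natDegree := card_roots' _
      _ ≤ s.card := pol_deg s a
  exact_mod_cast h1

end Pool.Agent.Y899.NV
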